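import Pool.Agent.Y243.ManN.Main

namespace Pool.Agent.Results.MP_1abf27_gt.AllDimensions

open Pool.Agent.Helper185.Man Pool.Agent.Helper185.Fat

/-- In ZFC, for every `n ≥ 2` there is a connected Hausdorff `n`-manifold, covered by at most `ℵ₁`
open sets homeomorphic to `ℝⁿ`, which has a `G_δ`-diagonal and is not quasi-developable. In fact
one space `M` serves for all dimensions and with an arbitrary factor: for every connected
Hausdorff `k`-manifold `N` (`k ≥ 0`) covered by at most `ℵ₁` charts and with a `G_δ`-diagonal,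
`M × N` is such a manifold of dimension `2 + k`. Each of these manifolds contains no perfect
preimage of `ω₁`. -/
theorem result :
    (∀ n : ℕ, 2 ≤ n → ∃ (M : Type) (_ : TopologicalSpace M), IsMfd M n ∧
      MfdWeightLeAleph1 M n ∧ HasGdeltaDiagonal M ∧ ¬ QuasiDevelopable M ∧
      ¬ ContainsPerfectPreimage M) ∧
    ∃ (M : Type) (_ : TopologicalSpace M),
      ∀ (k : ℕ) (N : Type) [TopologicalSpace N],
        IsMfd N k → MfdWeightLeAleph1 N k → HasGdeltaDiagonal N →
        IsMfd (M × N) (2 + k) ∧ MfdWeightLeAleph1 (M × N) (2 + k) ∧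
          HasGdeltaDiagonal (M × N) ∧ ¬ QuasiDevelopable (M × N) ∧
          ¬ ContainsPerfectPreimage (M × N) := by
  obtain ⟨M, _, h⟩ := Pool.Agent.Y243.ManN.all_dim
  have h' : ∀ (k : ℕ) (N : Type) [TopologicalSpace N],
        IsMfd N k → MfdWeightLeAleph1 N k → HasGdeltaDiagonal N →
        IsMfd (M × N) (2 + k) ∧ MfdWeightLeAleph1 (M × N) (2 + k) ∧
          HasGdeltaDiagonal (M × N) ∧ ¬ QuasiDevelopable (M × N) ∧
          ¬ ContainsPerfectPreimage (M × N) := by
    intro k N _ g1 g2 g3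
    obtain ⟨a1, a2, a3, a4⟩ := h k N g1 g2 g3
    obtain ⟨W, w1, w2⟩ := a3
    exact ⟨a1, a2, ⟨W, w1, w2⟩, a4,
      Pool.Agent.Y243.ManN.no_perfect_preimage_of_gdelta w1 w2⟩
  refine ⟨fun n hn => ?_, M, inferInstance, h'⟩
  obtain ⟨k, rfl⟩ := Nat.exists_eq_add_of_le hn
  obtain ⟨g1, g2, g3⟩ := Pool.Agent.Y243.ManN.euclid k
  exact ⟨_, inferInstance, h' k _ g1 g2 g3⟩

end Pool.Agent.Results.MP_1abf27_gt.AllDimensions
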